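import Mathlib

/-!
# Isotropic subspaces of a space of dimension `2 n` (module ISO)
-/

namespace Pool.Agent.H79.HN

/-- vectors which are pairwise orthogonal (and orthogonal to themselves) for a nondegenerate bilinear
form on a space of dimension `2 n` span a space of dimension at most `n` -/
theorem finrank_isotropic {K : Type*} [Field K] {n : ℕ}
    (B : LinearMap.BilinForm K (Fin (2 * n) → K)) (hB : B.Nondegenerate) {ι : Type*}
    (v : ι → Fin (2 * n) → K) (hv : ∀ i j, B (v i) (v j) = 0) :
    Module.finrank K (Submodule.span K (Set.range v)) ≤ n := by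
  classical
  set W : Submodule K (Fin (2 * n) → K) := Submodule.span K (Set.range v) with hW
  have hinj : Function.Injective B := by
    rw [← LinearMap.ker_eq_bot]
    exact LinearMap.BilinForm.Nondegenerate.ker_eq_bot hB
  have h1 : Module.finrank K (W.map B) = Module.finrank K W :=
    (LinearEquiv.finrank_eq (Submodule.equivMapOfInjective B hinj W)).symm
  have h2 : W ≤ (W.map B).dualCoannihilator := by
    intro y hy
    rw [Submodule.mem_dualCoannihilator]
    rintro f ⟨x, hx, rfl⟩
    -- `B x y = 0` for `x y ∈ W`
    have hx' : x ∈ Submodule.span K (Set.range v) := hx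
    have hy' : y ∈ Submodule.span K (Set.range v) := hy
    refine Submodule.span_induction (p := fun x _ => B x y = 0) ?_ ?_ ?_ ?_ hx'
    · rintro _ ⟨i, rfl⟩
      refine Submodule.span_induction (p := fun y _ => B (v i) y = 0) ?_ ?_ ?_ ?_ hy'
      · rintro _ ⟨j, rfl⟩; exact hv i j
      · simp
      · intro a b _ _ ha hb; rw [map_add, ha, hb, add_zero]
      · intro c a _ ha; rw [map_smul, ha, smul_zero]
    · simp
    · intro a b _ _ ha hb; rw [map_add, LinearMap.add_apply, ha, hb, add_zero]
    · intro c a _ ha; rw [map_smul, LinearMap.smul_apply, ha, smul_zero]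
  have h3 := Submodule.finrank_mono h2
  have h4 := Subspace.finrank_add_finrank_dualCoannihilator_eq (W.map B)
  rw [Module.finrank_fin_fun, h1] at h4
  omega

end Pool.Agent.H79.HN
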